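import Mathlib
import Pool.Agent.R35.WUITab

/-!
# MP_f51a03: a total weak unit interval graph with 8 vertices and 14 edges

The graph `G8` below has 8 vertices and 14 = 2 * 8 - 2 edges.  For each of its `2 ^ 14` edge
labelings the table in `Pool.Agent.R35.WUITab` holds eight integer positions in `{0, ..., 9}` such
that an edge is near exactly when its ends are at distance at most `2`.
-/

namespace Pool.Agent.Results.MP_f51a03_co.EightVertices

open Pool.Agent.R35.WUITab

/-- The two labels of an edge. -/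
inductive Label
  | N
  | F
  deriving DecidableEq

/-- `I`, with the number `t`, is a weak unit interval representation of `G` with respect to the
edge-labeling `l`: `t > 0` and, for every edge `uv`, `|I u - I v| ≤ t` iff `uv` is near. -/
def IsRep {V : Type} (G : SimpleGraph V) (l : G.edgeSet → Label) (t : ℝ) (I : V → ℝ) : Prop :=
  0 < t ∧ ∀ (u v : V) (h : G.Adj u v), |I u - I v| ≤ t ↔ l ⟨s(u, v), h⟩ = Label.N

/-- `G` is a total weak unit interval graph: it has a weak unit interval representation with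
respect to every edge-labeling. -/
def IsTotal {V : Type} (G : SimpleGraph V) : Prop :=
  ∀ l : G.edgeSet → Label, ∃ (t : ℝ) (I : V → ℝ), IsRep G l t I

/-- The 14 edges. -/
def E : Fin 14 → Fin 8 × Fin 8 :=
  ![(1, 2), (0, 3), (2, 4), (3, 4), (1, 5), (3, 5), (4, 5), (0, 6), (2, 6), (4, 6), (0, 7), (1, 7), (5, 7), (6, 7)]

/-- The graph. -/
def G8 : SimpleGraph (Fin 8) :=
  SimpleGraph.fromRel (fun a b => ∃ e : Fin 14, E e = (a, b))

instance : DecidableRel G8.Adj := by unfold G8; infer_instance

theorem good_spec {i w : ℕ} (h : good i w = true) :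
    ∀ e : Fin 14, near w (E e).1 (E e).2 = i.testBit e := by
  simp only [good, Bool.and_eq_true, beq_iff_eq] at h
  obtain ⟨⟨⟨⟨⟨⟨⟨⟨⟨⟨⟨⟨⟨h0, h1⟩, h2⟩, h3⟩, h4⟩, h5⟩, h6⟩, h7⟩, h8⟩, h9⟩, h10⟩, h11⟩, h12⟩, h13⟩ := h
  intro e
  fin_cases e
  · exact h0
  · exact h1
  · exact h2
  · exact h3
  · exact h4
  · exact h5
  · exact h6
  · exact h7
  · exact h8
  · exact h9
  · exact h10
  · exact h11
  · exact h12
  · exact h13

theorem adj_E (e : Fin 14) : G8.Adj (E e).1 (E e).2 := by
  revert e; decide

theorem adj_cases : ∀ u v : Fin 8, G8.Adj u v → ∃ e : Fin 14, E e = (u, v) ∨ E e = (v, u) := by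
  decide

theorem total_G8 : IsTotal G8 := by
  classical
  intro l
  let bits : Fin 14 → Bool := fun e => decide (l ⟨s((E e).1, (E e).2), adj_E e⟩ = Label.N)
  obtain ⟨w, hw⟩ := exists_good (Nat.ofBits bits) (Nat.ofBits_lt_two_pow bits)
  have hs := good_spec hw
  refine ⟨2, fun v => (dig w v : ℝ), by norm_num, ?_⟩
  have key : ∀ e : Fin 14, |(dig w (E e).1 : ℝ) - (dig w (E e).2 : ℝ)| ≤ 2 ↔
      l ⟨s((E e).1, (E e).2), adj_E e⟩ = Label.N := by
    intro e
    rw [← near_iff, hs e, Nat.testBit_ofBits_lt _ _ e.2]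
    simp [bits]
  intro u v h
  obtain ⟨e, he | he⟩ := adj_cases u v h
  · have hk := key e
    have h1 : (E e).1 = u := by rw [he]
    have h2 : (E e).2 = v := by rw [he]
    subst h1 h2
    exact hk
  · have hk := key e
    have h1 : (E e).1 = v := by rw [he]
    have h2 : (E e).2 = u := by rw [he]
    subst h1 h2
    rw [abs_sub_comm]
    rw [hk]
    have : (⟨s((E e).1, (E e).2), adj_E e⟩ : G8.edgeSet) = ⟨s((E e).2, (E e).1), h⟩ := by
      apply Subtype.ext
      exact Sym2.eq_swap
    rw [this]

theorem card_G8 : G8.edgeSet.ncard = 14 := by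
  have : G8.edgeSet.ncard = G8.edgeFinset.card := by
    rw [← SimpleGraph.coe_edgeFinset, Set.ncard_coe_finset]
  rw [this]
  decide +kernel

/-- The answer to Q1 is negative: there is a total weak unit interval graph with `8` vertices and
`14 = 2 * 8 - 2` edges; so it is not true that every total weak unit interval graph with at least
two vertices satisfies `|E| ≤ 2 |V| - 3`. -/
theorem result :
    (∃ G : SimpleGraph (Fin 8), IsTotal G ∧ G.edgeSet.ncard = 14) ∧
    ¬ ∀ (V : Type) [Fintype V] (G : SimpleGraph V), 2 ≤ Fintype.card V → IsTotal G →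
      (G.edgeSet.ncard : ℤ) ≤ 2 * (Fintype.card V : ℤ) - 3 := by
  refine ⟨⟨G8, total_G8, card_G8⟩, ?_⟩
  intro h
  have := h (Fin 8) G8 (by simp) total_G8
  rw [card_G8] at this
  simp at this

end Pool.Agent.Results.MP_f51a03_co.EightVertices
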